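import Pool.Agent.helper80.HF.SpecG

/-!
# MP_07c750, row hf:GCN (cells met by few short intervals)
-/

set_option autoImplicit false

open scoped MatrixGroups ContDiff Topology UpperHalfPlane ComplexConjugate
open UpperHalfPlane MeasureTheory Filter Set

namespace Pool.Agent.HF

theorem GCN_proof : GCN_stmt := by
  classical
  intro S M T hM hT
  have hM0 : (0 : ℝ) < M := by exact_mod_cast hM
  have hsub : T ⊆ S.biUnion fun s => Finset.Icc ⌈(M : ℝ) * s - 1⌉₊ ⌊(M : ℝ) * s + 3⌋₊ := by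
    intro k hk
    obtain ⟨v, h1, h2, s, hs, h3, h4⟩ := hT k hk
    rw [Finset.mem_biUnion]
    refine ⟨s, hs, ?_⟩
    rw [div_le_iff₀ hM0] at h1
    rw [le_div_iff₀ hM0] at h2
    have h5 : v * M ≤ M * s + 3 := by
      have := mul_le_mul_of_nonneg_right h4 hM0.le
      rw [add_mul, div_mul_cancel₀ _ hM0.ne'] at this
      linarith
    have h6 : M * s ≤ v * M := by
      have := mul_le_mul_of_nonneg_right h3 hM0.le
      linarith
    rw [Finset.mem_Icc]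
    refine ⟨Nat.ceil_le.2 (by linarith), Nat.le_floor (by linarith)⟩
  refine (Finset.card_le_card hsub).trans ?_
  refine (Finset.card_biUnion_le_card_mul S _ 6 fun s _ => ?_).trans (by rw [mul_comm])
  rw [Nat.card_Icc]
  by_cases h : (M : ℝ) * s + 3 < 0
  · have : ⌊(M : ℝ) * s + 3⌋₊ = 0 := Nat.floor_of_nonpos h.le
    omega
  · have h1 : ((⌊(M : ℝ) * s + 3⌋₊ : ℕ) : ℝ) ≤ M * s + 3 := Nat.floor_le (not_lt.1 h)
    have h2 : (M : ℝ) * s - 1 ≤ ⌈(M : ℝ) * s - 1⌉₊ := Nat.le_ceil _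
    have h3 : ((⌊(M : ℝ) * s + 3⌋₊ : ℕ) : ℝ) ≤ (⌈(M : ℝ) * s - 1⌉₊ : ℝ) + 4 := by linarith
    have h4 : ⌊(M : ℝ) * s + 3⌋₊ ≤ ⌈(M : ℝ) * s - 1⌉₊ + 4 := by exact_mod_cast h3
    omega

end Pool.Agent.HF
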